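import Mathlib
import Pool.Agent.J4.H38.BP.Defs
import Pool.Agent.J4.H31.DV.Rav1
import Pool.Agent.J4.H55.DV.TRav
import Pool.Agent.J4.H38.SR.Avg

/-! Project BP (helper38), piece B7 (`VTsumT`, `VTsumG`): sums of the densities over the sets of shifts, from the statements of
the pieces B1, B2, B5. -/

set_option autoImplicit false

namespace Pool.Agent.J4.H38.BP

open Finset Filter
open Pool.Agent.J4.H38.SR
open Pool.Agent.J4.H38.DV
open Pool.Agent.J4.H31.DV (rav1)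
open Pool.Agent.J4.H55.DV (rav1T)
open Pool.Agent.H387R2.Uni (nuT)
open Pool.Agent.H373R2.T7 (pz Vz mem_pz)

/-- statement of `bavG` -/
def St_bavG : Prop := ∀ (C η : ℝ) (_ : 0 ≤ C) (_ : 0 < η) (Δ : ℕ), ∃ w₀ : ℕ, 2 ≤ w₀ ∧ ∀ w : ℕ, w₀ ≤ w → ∀ᶠ N : ℕ in atTop,
    ∀ H y : ℕ, Real.log N ≤ H → H ≤ N → ∀ h : ℤ, |h| ≤ Δ →
    ∑ t ∈ AW w N H, (∏ p ∈ (pz y).filter (fun p => w < p ∧ (p : ℤ) ∣ (N : ℤ) + t + h), (1 + C / (p : ℝ)) - 1) ≤
      η * (AW w N H).card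

/-- statement of `bavT` -/
def St_bavT : Prop := ∀ (C η : ℝ) (_ : 0 ≤ C) (_ : 0 < η) (Δ : ℕ), ∃ w₀ : ℕ, 2 ≤ w₀ ∧ ∀ w : ℕ, w₀ ≤ w → ∃ H₀ : ℕ,
    ∀ H y : ℕ, H₀ ≤ H → ∀ h : ℤ, |h| ≤ Δ →
    ∑ t ∈ AW w 0 H, (∏ p ∈ (pz y).filter (fun p => w < p ∧ (p : ℤ) ∣ (t : ℤ) + h), (1 + C / (p : ℝ)) - 1) ≤
      η * (AW w 0 H).card

/-- statement of `bav2` -/
def St_bav2 : Prop := ∀ k m : ℕ, ∃ (C Ca : ℝ) (w₀ : ℕ), 0 < C ∧ 0 ≤ Ca ∧ 2 ≤ w₀ ∧ ∀ w : ℕ, w₀ ≤ w →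
    ∀ S0 : Finset ℤ, S0.card = m → (∀ p : ℕ, p.Prime → w < p → eZ S0 p = m) →
    ∀ (y : ℕ) (A : Finset ℕ) (a : ℕ → ℤ) (ζ : ℝ), w ≤ y → 0 ≤ ζ → ζ ≤ 1 → (∀ s t : ℕ, a s - a t = s - t ∨ a s - a t = t - s) →
    (∀ h ∈ S0, ∑ t ∈ A, (∏ p ∈ (pz y).filter (fun p => w < p ∧ (p : ℤ) ∣ a t - h), (1 + Ca / (p : ℝ)) - 1) ≤
      ζ * A.card) →
    (∀ s ∈ A, ∑ t ∈ A.erase s,
      (∏ p ∈ (pz y).filter (fun p => w < p ∧ (p : ℤ) ∣ (s : ℤ) - t), (1 + Ca / (p : ℝ)) - 1) ≤ ζ * A.card) →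
    ∀ j ≤ k, ∑ T ∈ A.powersetCard j, |PB S0 (T.image a) w y - GB m w y ^ j| ≤
      C * (ζ + 1 / w) * (GB m w y * A.card) ^ j

/-- statement of `GB_bd` -/
def St_GB : Prop := ∀ m : ℕ, ∃ w₀ : ℕ, 2 ≤ w₀ ∧ ∀ w y : ℕ, w₀ ≤ w → w ≤ y →
    1 / 2 * Vz y ≤ GB m w y ∧ GB m w y ≤ Vz y / Vz w ∧ GB m w y ≤ 1

/-- statement of `VT_bd` -/
def St_VT : Prop := ∀ T0 : Finset ℕ, (∀ p : ℕ, p.Prime → fT T0 p < p) → ∃ c C : ℝ, 0 < c ∧ 0 < C ∧ ∀ y : ℕ,
    c * Vz y ^ T0.card ≤ VT y T0 ∧ VT y T0 ≤ C * Vz y ^ T0.card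

namespace B7

/-- the number of residues does not change under an affine map -/
lemma eZ_nuT {p : ℕ} (X : Finset ℤ) (Y : Finset ℕ) (ε a : ℤ) (hε : ε = 1 ∨ ε = -1)
    (h : Y.image (fun n : ℕ => (n : ℤ) % p) = X.image (fun s => (ε * s + a) % p)) :
    nuT Y p = eZ X p := by
  classical
  have h1 : nuT Y p = (Y.image (fun n : ℕ => (n : ℤ) % p)).card := by
    have e : Y.image (fun n : ℕ => (n : ℤ) % p) = (Y.image (· % p)).image (fun n : ℕ => (n : ℤ)) := by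
      rw [image_image]
      refine image_congr fun n _ => ?_
      show (n : ℤ) % p = ((n % p : ℕ) : ℤ)
      push_cast
      rfl
    rw [e, card_image_of_injective _ Nat.cast_injective]
    rfl
  have h2 : X.image (fun s => (ε * s + a) % p) =
      (X.image (fun s => s % (p : ℤ))).image (fun r => (ε * r + a) % p) := by
    rw [image_image]
    refine image_congr fun s _ => ?_
    show (ε * s + a) % p = (ε * (s % p) + a) % p
    rw [Int.add_emod, Int.mul_emod, Int.add_emod (ε * (s % p)), Int.mul_emod ε (s % p), Int.emod_emod_of_dvd s (dvd_refl _)]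
  rw [h1, h, h2]
  unfold eZ
  refine card_image_of_injOn ?_
  intro r hr r' hr' hrr
  rw [mem_coe] at hr hr'
  obtain ⟨s, _, rfl⟩ := mem_image.1 hr
  obtain ⟨s', _, rfl⟩ := mem_image.1 hr'
  have h3 : (ε * (s % p) + a) ≡ (ε * (s' % p) + a) [ZMOD p] := hrr
  have h4 : ε * (s % p) ≡ ε * (s' % p) [ZMOD p] := Int.ModEq.add_right_cancel' a h3
  have h5 : (s % p) ≡ (s' % p) [ZMOD p] := by
    rcases hε with rfl | rfl
    · simpa using h4
    · have := h4.mul_left (-1)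
      simpa using this
  have h6 : (s % p) % p = (s' % p) % p := h5
  rwa [Int.emod_emod_of_dvd _ (dvd_refl _), Int.emod_emod_of_dvd _ (dvd_refl _)] at h6

/-- distinct residues of `T0` -/
lemma eZ_fz {T0 : Finset ℕ} {z p : ℕ} : eZ (fz T0 z) p = nuT T0 p := by
  classical
  refine (eZ_nuT (fz T0 z) T0 1 z (Or.inl rfl) ?_).symm
  unfold fz
  rw [image_image]
  refine image_congr fun n _ => ?_
  show (n : ℤ) % p = (1 * ((n : ℤ) - z) + z) % p
  congr 1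
  ring

lemma nuT_card {T0 : Finset ℕ} {p : ℕ} (h : ∀ t ∈ T0, t < p) : nuT T0 p = T0.card := by
  unfold nuT
  refine card_image_of_injOn ?_
  intro s hs t ht hst
  have hst' : s % p = t % p := hst
  rwa [Nat.mod_eq_of_lt (h s hs), Nat.mod_eq_of_lt (h t ht)] at hst'

lemma card_fz (T0 : Finset ℕ) (z : ℕ) : (fz T0 z).card = T0.card := by
  unfold fz
  refine card_image_of_injective _ fun a b h => ?_
  have : (a : ℤ) - z = (b : ℤ) - z := h
  omega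

/-- the product formula -/
lemma VT_PB {T0 Y : Finset ℕ} {z w y : ℕ} (X : Finset ℤ) (_hwy : w ≤ y) (hadm : ∀ p : ℕ, p.Prime → fT T0 p < p)
    (h1 : ∀ p : ℕ, p.Prime → p ≤ w → nuT Y p = nuT T0 p)
    (h2 : ∀ p : ℕ, p.Prime → w < p → p ≤ y → nuT Y p = eZ (fz T0 z ∪ X) p) :
    VT y Y = VT y T0 * PB (fz T0 z) X w y := by
  classical
  have key : ∀ p ∈ (Icc 1 y).filter Nat.Prime, (1 - (fT Y p : ℝ) / p) = (1 - (fT T0 p : ℝ) / p) *
      (if w < p then (1 - ((eZ (fz T0 z ∪ X) p : ℝ) - eZ (fz T0 z) p) / ((p : ℝ) - eZ (fz T0 z) p)) else 1) := by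
    intro p hp
    rw [pz_eq, mem_pz] at hp
    obtain ⟨hpy, hpp⟩ := hp
    have h3 := hadm p hpp
    rw [fT_eq Y hpp.pos]
    rw [fT_eq T0 hpp.pos] at h3 ⊢
    split_ifs with hw
    · rw [h2 p hpp hw hpy, eZ_fz]
      have h4 : (0 : ℝ) < (p : ℝ) - nuT T0 p := by
        rw [sub_pos]
        exact_mod_cast h3
      have h5 : (0 : ℝ) < p := by exact_mod_cast hpp.pos
      field_simp
      ring
    · rw [h1 p hpp (not_lt.1 hw), mul_one]
  unfold VT PB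
  rw [prod_congr rfl key, prod_mul_distrib, prod_ite, prod_const_one, mul_one, pz_eq]

/-- the sum of the relative densities -/
lemma sum_PB7 {A : Finset ℕ} {a : ℕ → ℤ} {S0 : Finset ℤ} {w y j : ℕ} {G C : ℝ} (hG : 0 ≤ G) (hC : 0 ≤ C) (hw : 1 ≤ w)
    (h : ∑ T ∈ A.powersetCard j, |PB S0 (T.image a) w y - G ^ j| ≤ C * (1 + 1 / w) * (G * A.card) ^ j) :
    ∑ T ∈ A.powersetCard j, PB S0 (T.image a) w y ≤ (2 * C + 1) * (G * A.card) ^ j := by
  have h1 : ∑ T ∈ A.powersetCard j, PB S0 (T.image a) w y ≤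
      ∑ T ∈ A.powersetCard j, (|PB S0 (T.image a) w y - G ^ j| + G ^ j) := by
    refine sum_le_sum fun T _ => ?_
    have := le_abs_self (PB S0 (T.image a) w y - G ^ j)
    linarith
  have h2 : ∑ _T ∈ A.powersetCard j, G ^ j ≤ (G * A.card) ^ j := by
    rw [sum_const, card_powersetCard, nsmul_eq_mul, mul_pow, mul_comm]
    have h3 : ((A.card.choose j : ℕ) : ℝ) ≤ (A.card : ℝ) ^ j := by
      have := Nat.choose_le_pow A.card j
      exact_mod_cast this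
    exact mul_le_mul_of_nonneg_left h3 (by positivity)
  have h3 : (1 : ℝ) + 1 / w ≤ 2 := by
    have : (1 : ℝ) / w ≤ 1 := by
      rw [div_le_one (by exact_mod_cast (by omega : 0 < w))]
      exact_mod_cast hw
    linarith
  have h4 : 0 ≤ (G * A.card) ^ j := by positivity
  have h5 : C * (1 + 1 / w) * (G * A.card) ^ j ≤ 2 * C * (G * A.card) ^ j := by
    refine mul_le_mul_of_nonneg_right ?_ h4
    nlinarith
  rw [sum_add_distrib] at h1
  linarith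

lemma AW_card_le (w N H : ℕ) : ((AW w N H).card : ℝ) ≤ H := by
  have h1 : (AW w N H).card ≤ (Icc 1 H).card := card_le_card (filter_subset _ _)
  rw [Nat.card_Icc, Nat.add_sub_cancel] at h1
  exact_mod_cast h1

/-- the last estimate -/
lemma final {S V C0 C G Vw Vy κ L H : ℝ} {j k m : ℕ} (hjk : j ≤ k) (hS : S ≤ V * ((2 * C + 1) * (G * H) ^ j))
    (hV : V ≤ C0 * Vy ^ m) (hG : G ≤ Vy / Vw) (hG0 : 0 ≤ G) (hVw : 0 < Vw) (hVw1 : Vw ≤ 1) (hVy : 0 ≤ Vy)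
    (hC : 0 ≤ C) (hC0 : 0 ≤ C0) (hH : 0 ≤ H) (hκ : 0 < κ) (hL : 0 < L) (hy : Vy ≤ 2 / (κ * L)) :
    S ≤ C0 * (2 * C + 1) * (1 / Vw) ^ k * (2 / κ) ^ (j + m) * (H ^ j / L ^ (j + m)) := by
  have h1 : (G * H) ^ j ≤ (Vy / Vw * H) ^ j :=
    pow_le_pow_left₀ (by positivity) (mul_le_mul_of_nonneg_right hG hH) j
  have h2 : V * ((2 * C + 1) * (G * H) ^ j) ≤ C0 * Vy ^ m * ((2 * C + 1) * (Vy / Vw * H) ^ j) :=
    mul_le_mul hV (mul_le_mul_of_nonneg_left h1 (by positivity)) (by positivity) (by positivity)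
  have h3 : C0 * Vy ^ m * ((2 * C + 1) * (Vy / Vw * H) ^ j) =
      C0 * (2 * C + 1) * (1 / Vw) ^ j * Vy ^ (j + m) * H ^ j := by
    rw [mul_pow, div_pow, pow_add, one_div, inv_pow]
    field_simp
  have h4 : Vy ^ (j + m) ≤ (2 / (κ * L)) ^ (j + m) := pow_le_pow_left₀ hVy hy _
  have h5 : (1 / Vw) ^ j ≤ (1 / Vw) ^ k := by
    refine pow_le_pow_right₀ ?_ hjk
    rw [le_div_iff₀ hVw]
    linarith
  calc S ≤ _ := hS
    _ ≤ _ := h2
    _ = _ := h3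
    _ ≤ C0 * (2 * C + 1) * (1 / Vw) ^ k * (2 / (κ * L)) ^ (j + m) * H ^ j := by
        have e1 : 0 ≤ H ^ j := by positivity
        refine mul_le_mul_of_nonneg_right ?_ e1
        exact mul_le_mul (mul_le_mul_of_nonneg_left h5 (by positivity)) h4 (by positivity) (by positivity)
    _ = _ := by
        have e : (2 / (κ * L)) ^ (j + m) = (2 / κ) ^ (j + m) / L ^ (j + m) := by
          rw [← div_pow, div_div]
        rw [e]
        ring

/-- `Vz y` is small -/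
lemma Vz_small {κ : ℝ} (hκ : 0 < κ) : ∀ᶠ N : ℕ in atTop, 0 < Real.log N ∧
    ∀ y : ℕ, (N : ℝ) ^ κ ≤ y + 1 → Vz y ≤ 2 / (κ * Real.log N) := by
  have hlim : Tendsto (fun N : ℕ => Real.log (N : ℝ)) atTop atTop :=
    Real.tendsto_log_atTop.comp (tendsto_natCast_atTop_atTop (R := ℝ))
  filter_upwards [hlim.eventually_ge_atTop (4 / κ), hlim.eventually_ge_atTop 1, eventually_ge_atTop 1] with N h1 h2 hN
  have hL : 0 < Real.log N := by linarith
  refine ⟨hL, fun y hy => ?_⟩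
  have hN0 : (0 : ℝ) < N := by exact_mod_cast hN
  have h3 : 4 ≤ κ * Real.log N := by
    rw [div_le_iff₀ hκ] at h1
    linarith
  have h4 : (N : ℝ) ^ κ = Real.exp (κ * Real.log N) := by
    rw [Real.rpow_def_of_pos hN0, mul_comm]
  have h5 : Real.exp (κ * Real.log N) ≤ y + 1 := h4 ▸ hy
  -- `y ≥ exp (κ log N / 2)`
  have h6 : Real.exp (κ * Real.log N / 2) ≤ y := by
    have e1 : Real.exp (κ * Real.log N) = Real.exp (κ * Real.log N / 2) * Real.exp (κ * Real.log N / 2) := by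
      rw [← Real.exp_add]
      congr 1
      ring
    have e2 : (2 : ℝ) ≤ Real.exp (κ * Real.log N / 2) := by
      have := Real.add_one_le_exp (κ * Real.log N / 2)
      linarith
    nlinarith
  have h7 : (2 : ℝ) ≤ y := by
    have := Real.add_one_le_exp (κ * Real.log N / 2)
    linarith
  have h8 : 2 ≤ y := by exact_mod_cast h7
  have h9 : κ * Real.log N / 2 ≤ Real.log y := by
    rw [Real.le_log_iff_exp_le (by linarith)]
    exact h6
  refine (Vz_le y h8).trans ?_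
  rw [div_le_div_iff₀ (by linarith) (by positivity)]
  linarith

/-- `y` is large -/
lemma y_large {κ : ℝ} (hκ : 0 < κ) (w : ℕ) : ∀ᶠ N : ℕ in atTop, ∀ y : ℕ, (N : ℝ) ^ κ ≤ y + 1 → w ≤ y := by
  have hlim : Tendsto (fun N : ℕ => (N : ℝ) ^ κ) atTop atTop :=
    (tendsto_rpow_atTop hκ).comp (tendsto_natCast_atTop_atTop (R := ℝ))
  filter_upwards [hlim.eventually_ge_atTop (w + 1)] with N h1 y hy
  have : (w : ℝ) ≤ y := by linarith
  exact_mod_cast this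

lemma Vz_le_one' (w : ℕ) : Vz w ≤ 1 := by
  unfold Vz
  refine prod_le_one (fun p hp => ?_) fun p _ => ?_
  · have : (1 : ℝ) ≤ p := by exact_mod_cast (mem_pz.1 hp).2.one_lt.le
    rw [sub_nonneg]
    exact div_le_one_of_le₀ this (by linarith)
  · have : 0 ≤ 1 / (p : ℝ) := by positivity
    linarith

/-- residues: the shifts are multiples of `W` -/
lemma nuT_T {T0 S : Finset ℕ} {z w H : ℕ} (hz : z ∈ T0) (hS : S ⊆ AW w 0 H) {p : ℕ} (hp : p.Prime) (hpw : p ≤ w) :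
    nuT (T0 ∪ S.image (fun t => z + t)) p = nuT T0 p := by
  classical
  unfold nuT
  congr 1
  rw [image_union, union_eq_left]
  intro r hr
  rw [image_image] at hr
  obtain ⟨t, ht, rfl⟩ := mem_image.1 hr
  have h1 := (mem_filter.1 (hS ht)).2
  rw [zero_add] at h1
  have h2 : p ∣ t := (dvd_prod_of_mem (fun p => p) (mem_pz.2 ⟨hpw, hp⟩)).trans h1
  refine mem_image.2 ⟨z, hz, ?_⟩
  show z % p = (z + t) % p
  rw [Nat.add_mod, Nat.mod_eq_zero_of_dvd h2, add_zero, Nat.mod_mod]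

lemma nuT_T' (T0 S : Finset ℕ) (z p : ℕ) :
    nuT (T0 ∪ S.image (fun t => z + t)) p = eZ (fz T0 z ∪ sT S) p := by
  classical
  refine eZ_nuT _ _ 1 z (Or.inl rfl) ?_
  unfold fz sT
  rw [image_union, image_union, image_image, image_image, image_image]
  congr 1
  · refine image_congr fun n _ => ?_
    show (n : ℤ) % p = (1 * ((n : ℤ) - z) + z) % p
    congr 1
    ring
  · refine image_congr fun n _ => ?_
    show ((z + n : ℕ) : ℤ) % p = (1 * (n : ℤ) + z) % p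
    congr 1
    push_cast
    ring

lemma eZ_refl (T0 S : Finset ℕ) (z N b p : ℕ) (hb : p ∣ N + b) (hle : ∀ h ∈ T0, h ≤ b) :
    nuT (T0.image (fun h => b + z - h) ∪ S) p = eZ (fz T0 z ∪ sG N S) p := by
  classical
  refine eZ_nuT _ _ (-1) b (Or.inr rfl) ?_
  unfold fz sG
  rw [image_union, image_union, image_image, image_image, image_image]
  congr 1
  · refine image_congr fun n hn => ?_
    show ((b + z - n : ℕ) : ℤ) % p = (-1 * ((n : ℤ) - z) + b) % p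
    have := hle n hn
    rw [Nat.cast_sub (by omega)]
    congr 1
    push_cast
    ring
  · refine image_congr fun n _ => ?_
    show (n : ℤ) % p = (-1 * (-((N : ℤ) + n)) + b) % p
    have e : -1 * (-((N : ℤ) + n)) + b = n + ((N + b : ℕ) : ℤ) := by
      push_cast
      ring
    rw [e]
    obtain ⟨q, hq⟩ := hb
    rw [hq]
    push_cast
    rw [Int.add_mul_emod_self_left]

/-- residues: the shifts are `-N` modulo `W` -/
lemma nuT_G {T0 S : Finset ℕ} {z w N H b : ℕ} (hz : z ∈ T0) (hS : S ⊆ AW w N H) {p : ℕ} (hp : p.Prime) (hpw : p ≤ w)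
    (hb : p ∣ N + b) (hle : ∀ h ∈ T0, h ≤ b) :
    nuT (T0.image (fun h => b + z - h) ∪ S) p = nuT T0 p := by
  classical
  rw [eZ_refl T0 S z N b p hb hle, ← eZ_fz (z := z)]
  unfold eZ
  congr 1
  rw [image_union, union_eq_left]
  intro r hr
  unfold sG at hr
  rw [image_image] at hr
  obtain ⟨t, ht, rfl⟩ := mem_image.1 hr
  have h1 := (mem_filter.1 (hS ht)).2
  have h2 : p ∣ N + t := (dvd_prod_of_mem (fun p => p) (mem_pz.2 ⟨hpw, hp⟩)).trans h1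
  have h3 : (p : ℤ) ∣ -((N : ℤ) + t) := by
    rw [dvd_neg]
    exact_mod_cast h2
  refine mem_image.2 ⟨(z : ℤ) - z, mem_image.2 ⟨z, hz, rfl⟩, ?_⟩
  show ((z : ℤ) - z) % p = (-((N : ℤ) + t)) % p
  rw [sub_self, Int.zero_emod, Int.emod_eq_zero_of_dvd h3]

end B7

open B7 in
theorem VTsumT_of (hbavT : St_bavT) (hbav2 : St_bav2) (hGB : St_GB) (hVT : St_VT)
    (k : ℕ) (T0 : Finset ℕ) (z : ℕ) (hz : z ∈ T0) (hadm : ∀ p : ℕ, p.Prime → fT T0 p < p) :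
    ∃ w₀ : ℕ, 2 ≤ w₀ ∧ ∀ w : ℕ, w₀ ≤ w → ∃ Cv : ℝ, 0 < Cv ∧ ∀ κ : ℝ, 0 < κ → κ ≤ 1 → ∀ᶠ N : ℕ in atTop,
    ∀ y : ℕ, (y : ℝ) < (N : ℝ) ^ κ → (N : ℝ) ^ κ ≤ y + 1 → ∀ H : ℕ, Real.log N ≤ H → H ≤ N →
    ∀ A ⊆ AW w 0 H, ∀ j ≤ k, ∑ S ∈ A.powersetCard j, VT y (T0 ∪ S.image (fun t => z + t)) ≤
      Cv * (2 / κ) ^ (j + T0.card) * ((H : ℝ) ^ j / Real.log N ^ (j + T0.card)) := by
  classical
  obtain ⟨C, Ca, w₁, hC, hCa, hw₁, h2⟩ := hbav2 k T0.card
  obtain ⟨w₂, hw₂, h3⟩ := hbavT Ca 1 hCa one_pos (T0.sup id)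
  obtain ⟨w₃, hw₃, h4⟩ := hGB T0.card
  obtain ⟨w₄, hw₄, h5⟩ := rav1T Ca 1 hCa one_pos
  obtain ⟨c0, C0, hc0, hC0, h6⟩ := hVT T0 hadm
  refine ⟨max (max w₁ w₂) (max (max w₃ w₄) (T0.sup id)), le_max_of_le_left (le_max_of_le_left hw₁),
    fun w hw => ?_⟩
  have e1 : w₁ ≤ w := (le_max_left _ _).trans ((le_max_left _ _).trans hw)
  have e2 : w₂ ≤ w := (le_max_right _ _).trans ((le_max_left _ _).trans hw)
  have e3 : w₃ ≤ w := (le_max_left _ _).trans ((le_max_left _ _).trans ((le_max_right _ _).trans hw))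
  have e4 : w₄ ≤ w := (le_max_right _ _).trans ((le_max_left _ _).trans ((le_max_right _ _).trans hw))
  have e5 : T0.sup id ≤ w := (le_max_right _ _).trans ((le_max_right _ _).trans hw)
  have hVw := Vz_pos' w
  have hVw1 := Vz_le_one' w
  obtain ⟨H₁, g1⟩ := h3 w e2
  obtain ⟨H₂, g2⟩ := h5 w e4
  have hlim : Tendsto (fun N : ℕ => Real.log (N : ℝ)) atTop atTop :=
    Real.tendsto_log_atTop.comp (tendsto_natCast_atTop_atTop (R := ℝ))
  refine ⟨C0 * (2 * C + 1) * (1 / Vz w) ^ k, by positivity, fun κ hκ _ => ?_⟩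
  filter_upwards [Vz_small hκ, y_large hκ w, hlim.eventually_ge_atTop (max H₁ H₂ : ℕ)] with N f1 f2 f3
    y _ hy H hH1 _ A hA j hj
  have hwy := f2 y hy
  have hH : max H₁ H₂ ≤ H := by
    have : ((max H₁ H₂ : ℕ) : ℝ) ≤ H := le_trans f3 hH1
    exact_mod_cast this
  obtain ⟨_, q2, _⟩ := h4 w y e3 hwy
  have hG0 : 0 ≤ GB T0.card w y := by
    have := (h4 w y e3 hwy).1
    have := Vz_pos' y
    linarith
  have hS0 : ∀ h ∈ fz T0 z, ∑ t ∈ AW w 0 H, (∏ p ∈ (pz y).filter (fun p => w < p ∧ (p : ℤ) ∣ ((fun t : ℕ => (t : ℤ)) t) - h),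
      (1 + Ca / (p : ℝ)) - 1) ≤ 1 * ((AW w 0 H).card : ℝ) := by
    intro h hh
    unfold fz at hh
    obtain ⟨h0, hh0, rfl⟩ := mem_image.1 hh
    have b1 : (h0 : ℤ) ≤ ((T0.sup id : ℕ) : ℤ) := by exact_mod_cast le_sup (f := id) hh0
    have b2 : (z : ℤ) ≤ ((T0.sup id : ℕ) : ℤ) := by exact_mod_cast le_sup (f := id) hz
    have b3 : (0 : ℤ) ≤ h0 := Int.natCast_nonneg _
    have b4 : (0 : ℤ) ≤ z := Int.natCast_nonneg _
    have := g1 H y ((le_max_left _ _).trans hH) (-((h0 : ℤ) - z)) (by rw [abs_le]; constructor <;> linarith)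
    simpa only [sub_eq_add_neg] using this
  have hcard : ∀ p : ℕ, p.Prime → w < p → eZ (fz T0 z) p = T0.card := by
    intro p _ hp
    rw [eZ_fz]
    refine nuT_card fun t ht => ?_
    have : t ≤ T0.sup id := le_sup (f := id) ht
    omega
  have r1 := h2 w e1 (fz T0 z) (card_fz T0 z) hcard y (AW w 0 H) (fun t : ℕ => (t : ℤ)) 1 hwy zero_le_one le_rfl
    (fun s t => Or.inl rfl) hS0 ((g2 H y ((le_max_right _ _).trans hH)).2) j hj
  have r2 := sum_PB7 hG0 hC.le (by omega : 1 ≤ w) r1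
  have hsum : ∑ S ∈ A.powersetCard j, VT y (T0 ∪ S.image (fun t => z + t)) ≤
      VT y T0 * ((2 * C + 1) * (GB T0.card w y * H) ^ j) := by
    calc ∑ S ∈ A.powersetCard j, VT y (T0 ∪ S.image (fun t => z + t)) ≤
          ∑ S ∈ (AW w 0 H).powersetCard j, VT y (T0 ∪ S.image (fun t => z + t)) :=
          sum_le_sum_of_subset_of_nonneg (powersetCard_mono hA) fun S _ _ => VT_nonneg _ _
      _ = ∑ S ∈ (AW w 0 H).powersetCard j, VT y T0 * PB (fz T0 z) (S.image (fun t : ℕ => (t : ℤ))) w y := by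
          refine sum_congr rfl fun S hS => ?_
          have hS1 := (mem_powersetCard.1 hS).1
          exact VT_PB _ hwy hadm (fun p hp hpw => nuT_T hz hS1 hp hpw) fun p _ _ _ => nuT_T' T0 S z p
      _ = VT y T0 * ∑ S ∈ (AW w 0 H).powersetCard j, PB (fz T0 z) (S.image (fun t : ℕ => (t : ℤ))) w y := by
          rw [mul_sum]
      _ ≤ VT y T0 * ((2 * C + 1) * (GB T0.card w y * (AW w 0 H).card) ^ j) :=
          mul_le_mul_of_nonneg_left r2 (VT_nonneg _ _)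
      _ ≤ _ := by
          refine mul_le_mul_of_nonneg_left ?_ (VT_nonneg _ _)
          refine mul_le_mul_of_nonneg_left ?_ (by positivity)
          exact pow_le_pow_left₀ (by positivity) (mul_le_mul_of_nonneg_left (AW_card_le w 0 H) hG0) j
  exact final hj hsum (h6 y).2 q2 hG0 hVw hVw1 (Vz_pos' y).le hC.le hC0.le (Nat.cast_nonneg _) hκ f1.1 (f1.2 y hy)

open B7 in
theorem VTsumG_of (hbavG : St_bavG) (hbav2 : St_bav2) (hGB : St_GB) (hVT : St_VT)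
    (k : ℕ) (T0 : Finset ℕ) (z : ℕ) (hz : z ∈ T0) (hadm : ∀ p : ℕ, p.Prime → fT T0 p < p) :
    ∃ w₀ : ℕ, 2 ≤ w₀ ∧ ∀ w : ℕ, w₀ ≤ w → ∃ Cv : ℝ, 0 < Cv ∧ ∀ κ : ℝ, 0 < κ → κ ≤ 1 → ∀ᶠ N : ℕ in atTop,
    ∀ y : ℕ, (y : ℝ) < (N : ℝ) ^ κ → (N : ℝ) ^ κ ≤ y + 1 → ∀ H : ℕ, Real.log N ≤ H → H ≤ N →
    ∀ b : ℕ, (∀ p ∈ pz y, p ∣ N + b) → (∀ h ∈ T0, h ≤ b) →
    ∀ A ⊆ AW w N H, ∀ j ≤ k, ∑ S ∈ A.powersetCard j, VT y (T0.image (fun h => b + z - h) ∪ S) ≤
      Cv * (2 / κ) ^ (j + T0.card) * ((H : ℝ) ^ j / Real.log N ^ (j + T0.card)) := by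
  classical
  obtain ⟨C, Ca, w₁, hC, hCa, hw₁, h2⟩ := hbav2 k T0.card
  obtain ⟨w₂, hw₂, h3⟩ := hbavG Ca 1 hCa one_pos (T0.sup id)
  obtain ⟨w₃, hw₃, h4⟩ := hGB T0.card
  obtain ⟨w₄, hw₄, h5⟩ := rav1 Ca 1 hCa one_pos
  obtain ⟨c0, C0, hc0, hC0, h6⟩ := hVT T0 hadm
  refine ⟨max (max w₁ w₂) (max (max w₃ w₄) (T0.sup id)), le_max_of_le_left (le_max_of_le_left hw₁),
    fun w hw => ?_⟩
  have e1 : w₁ ≤ w := (le_max_left _ _).trans ((le_max_left _ _).trans hw)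
  have e2 : w₂ ≤ w := (le_max_right _ _).trans ((le_max_left _ _).trans hw)
  have e3 : w₃ ≤ w := (le_max_left _ _).trans ((le_max_left _ _).trans ((le_max_right _ _).trans hw))
  have e4 : w₄ ≤ w := (le_max_right _ _).trans ((le_max_left _ _).trans ((le_max_right _ _).trans hw))
  have e5 : T0.sup id ≤ w := (le_max_right _ _).trans ((le_max_right _ _).trans hw)
  have hVw := Vz_pos' w
  have hVw1 := Vz_le_one' w
  refine ⟨C0 * (2 * C + 1) * (1 / Vz w) ^ k, by positivity, fun κ hκ _ => ?_⟩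
  filter_upwards [Vz_small hκ, y_large hκ w, h3 w e2, h5 w e4] with N f1 f2 g1 g2
    y _ hy H hH1 hHN b hb hle A hA j hj
  have hwy := f2 y hy
  obtain ⟨_, q2, _⟩ := h4 w y e3 hwy
  have hG0 : 0 ≤ GB T0.card w y := by
    have := (h4 w y e3 hwy).1
    have := Vz_pos' y
    linarith
  have hS0 : ∀ h ∈ fz T0 z, ∑ t ∈ AW w N H, (∏ p ∈ (pz y).filter (fun p => w < p ∧
      (p : ℤ) ∣ ((fun t : ℕ => -((N : ℤ) + t)) t) - h),
      (1 + Ca / (p : ℝ)) - 1) ≤ 1 * ((AW w N H).card : ℝ) := by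
    intro h hh
    unfold fz at hh
    obtain ⟨h0, hh0, rfl⟩ := mem_image.1 hh
    have b1 : (h0 : ℤ) ≤ ((T0.sup id : ℕ) : ℤ) := by exact_mod_cast le_sup (f := id) hh0
    have b2 : (z : ℤ) ≤ ((T0.sup id : ℕ) : ℤ) := by exact_mod_cast le_sup (f := id) hz
    have b3 : (0 : ℤ) ≤ h0 := Int.natCast_nonneg _
    have b4 : (0 : ℤ) ≤ z := Int.natCast_nonneg _
    have := g1 H y hH1 hHN ((h0 : ℤ) - z) (by rw [abs_le]; constructor <;> linarith)
    have e : ∀ (t p : ℕ), (p : ℤ) ∣ -((N : ℤ) + t) - ((h0 : ℤ) - z) ↔ (p : ℤ) ∣ (N : ℤ) + t + ((h0 : ℤ) - z) := by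
      intro t p
      rw [show -((N : ℤ) + t) - ((h0 : ℤ) - z) = -((N : ℤ) + t + ((h0 : ℤ) - z)) by ring, dvd_neg]
    simp only [e]
    exact this
  have hcard : ∀ p : ℕ, p.Prime → w < p → eZ (fz T0 z) p = T0.card := by
    intro p _ hp
    rw [eZ_fz]
    refine nuT_card fun t ht => ?_
    have : t ≤ T0.sup id := le_sup (f := id) ht
    omega
  have r1 := h2 w e1 (fz T0 z) (card_fz T0 z) hcard y (AW w N H) (fun t : ℕ => -((N : ℤ) + t)) 1 hwy zero_le_one le_rfl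
    (fun s t => Or.inr (by ring)) hS0 ((g2 H y hH1 hHN).2) j hj
  have r2 := sum_PB7 hG0 hC.le (by omega : 1 ≤ w) r1
  have hsum : ∑ S ∈ A.powersetCard j, VT y (T0.image (fun h => b + z - h) ∪ S) ≤
      VT y T0 * ((2 * C + 1) * (GB T0.card w y * H) ^ j) := by
    calc ∑ S ∈ A.powersetCard j, VT y (T0.image (fun h => b + z - h) ∪ S) ≤
          ∑ S ∈ (AW w N H).powersetCard j, VT y (T0.image (fun h => b + z - h) ∪ S) :=
          sum_le_sum_of_subset_of_nonneg (powersetCard_mono hA) fun S _ _ => VT_nonneg _ _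
      _ = ∑ S ∈ (AW w N H).powersetCard j, VT y T0 * PB (fz T0 z) (S.image (fun t : ℕ => -((N : ℤ) + t))) w y := by
          refine sum_congr rfl fun S hS => ?_
          have hS1 := (mem_powersetCard.1 hS).1
          exact VT_PB _ hwy hadm
            (fun p hp hpw => nuT_G hz hS1 hp hpw (hb p (mem_pz.2 ⟨hpw.trans hwy, hp⟩)) hle)
            fun p hp _ hpy => eZ_refl T0 S z N b p (hb p (mem_pz.2 ⟨hpy, hp⟩)) hle
      _ = VT y T0 * ∑ S ∈ (AW w N H).powersetCard j, PB (fz T0 z) (S.image (fun t : ℕ => -((N : ℤ) + t))) w y := by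
          rw [mul_sum]
      _ ≤ VT y T0 * ((2 * C + 1) * (GB T0.card w y * (AW w N H).card) ^ j) :=
          mul_le_mul_of_nonneg_left r2 (VT_nonneg _ _)
      _ ≤ _ := by
          refine mul_le_mul_of_nonneg_left ?_ (VT_nonneg _ _)
          refine mul_le_mul_of_nonneg_left ?_ (by positivity)
          exact pow_le_pow_left₀ (by positivity) (mul_le_mul_of_nonneg_left (AW_card_le w N H) hG0) j
  exact final hj hsum (h6 y).2 q2 hG0 hVw hVw1 (Vz_pos' y).le hC.le hC0.le (Nat.cast_nonneg _) hκ f1.1 (f1.2 y hy)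

end Pool.Agent.J4.H38.BP
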